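import Pool.Agent.W547.LN.TDefs

/-!
# Cup products with powers of the class of a polarization, and positivity of primitive classes
-/

namespace Pool.Agent.W547.HR

open Module Equiv Pool.Agent.W547.KB Pool.Agent.W547.LD Pool.Agent.W530.NF

/-- The alternating sum `∑ sign(σ) g (v ∘ σ)` over the permutations `σ` of `P`. If `g` is a product
of alternating forms in disjoint sets of variables, this is, up to a positive factor (the product of
the factorials of the degrees), the cup product of the forms. -/
def altSum {P H R : Type} [Fintype P] [DecidableEq P] [CommRing R] (g : (P → H) → R) (v : P → H) :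
    R :=
  ∑ σ : Perm P, ((Perm.sign σ : ℤ) : R) * g (fun p => v (σ p))

/-- The product of a function of vectors indexed by `P` and a function of vectors indexed by `Q`. -/
def times {P Q H R : Type} [CommRing R] (g : (P → H) → R) (h : (Q → H) → R) (v : P ⊕ Q → H) : R :=
  g (fun p => v (Sum.inl p)) * h (fun q => v (Sum.inr q))

/-- The function `∏ k, E (v (k, 0), v (k, 1))` of vectors indexed by `Fin m × Fin 2`; its alternating
sum is, up to a positive factor, the `m`-th power of the class of the alternating form `E`. -/
def powE {H R : Type} [CommRing R] (E : H → H → R) (m : ℕ) (v : Fin m × Fin 2 → H) : R :=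
  ∏ k : Fin m, E (v (k, 0)) (v (k, 1))

/-- The restriction to `H_1(X, ℚ)` of the form `z` on the rational Tate module `V = K ⊗ H_1(X, ℚ)`
(it determines `z`). -/
def onH1 {X : CMAV} {K V : Type} [Field K] [AddCommGroup V] [Module K V] (C : Comparison X K V)
    {κ : Type} (z : V [⋀^κ]→ₗ[K] K) (v : κ → X.H1) : K :=
  z (fun k => C.ι (v k))

/-- The rational form `E` with values in `K`. -/
def castE (K : Type) [Field K] {H : Type} (E : H → H → ℚ) (v w : H) : K := (E v w : K)

/-- `z ∈ H^{2r}(X)` is primitive for the polarization `E`, `dim X = 2 r + m`: the cup product of `z`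
with the power `m + 1` of the class of `E` is zero. -/
def IsPrimitive {X : CMAV} {K V : Type} [Field K] [AddCommGroup V] [Module K V]
    (C : Comparison X K V) (E : X.H1 → X.H1 → ℚ) {κ : Type} [Fintype κ] [DecidableEq κ] (m : ℕ)
    (z : V [⋀^κ]→ₗ[K] K) : Prop :=
  ∀ v : κ ⊕ (Fin (m + 1) × Fin 2) → X.H1,
    altSum (times (onH1 C z) (powE (castE K E) (m + 1))) v = 0

/-- The intersection numbers of `z` with the classes of complementary degree in the ring generated by
divisors and by pull-backs of split Weil classes are rational (with respect to the rational structure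
of the top cohomology given by `H_1(X, ℚ)`). The classes of algebraic cycles have this property
if the classes in this ring are algebraic. -/
def HasRationalNumbers {X : CMAV} {K V : Type} [Field K] [AddCommGroup V] [Module K V]
    (C : Comparison X K V) {κ : Type} [Fintype κ] [DecidableEq κ] (z : V [⋀^κ]→ₗ[K] K) : Prop :=
  ∀ (κ' : Type) [Fintype κ'] [DecidableEq κ'] (h : X.H1 [⋀^κ']→ₗ[ℚ] ℚ),
    Fintype.card κ + Fintype.card κ' = finrank ℚ X.H1 → DWRing X κ' h →
      ∀ v : κ ⊕ κ' → X.H1, ∃ a : ℚ, altSum (times (onH1 C z) (fun u => ((h u : ℚ) : K))) v = a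

/-- The positivity of the standard conjecture of Hodge type for `z ∈ H^{2r}(X)`, `dim X = 2 r + m`:
`(-1)^r z ∪ z ∪ E^m` is a positive rational multiple of the top power `E^{2 r + m}` of the class of
the polarization (both up to the positive factors mentioned above). -/
def IsPositive {X : CMAV} {K V : Type} [Field K] [AddCommGroup V] [Module K V]
    (C : Comparison X K V) (E : X.H1 → X.H1 → ℚ) {r : ℕ} (m : ℕ)
    (z : V [⋀^Fin r × Fin 2]→ₗ[K] K) : Prop :=
  ∃ c : ℚ, 0 < c ∧ ∀ v : (Fin r × Fin 2) ⊕ ((Fin r × Fin 2) ⊕ (Fin m × Fin 2)) → X.H1,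
    (-1) ^ r * altSum (times (onH1 C z) (times (onH1 C z) (powE (castE K E) m))) v =
      (c : K) * altSum (times (powE (castE K E) r) (times (powE (castE K E) r)
        (powE (castE K E) m))) v

/-- `z` is a Tate class in `H^{2r}(A₀, ℚ_ℓ(r))` over the extension of degree `s`: the `s`-th power of
the Frobenius endomorphism multiplies `z` by `q ^ {r s}`. -/
def IsTateOver {K V : Type} [Field K] [AddCommGroup V] [Module K V] (F : V →ₗ[K] V) (q s : ℕ)
    {r : ℕ} (z : V [⋀^Fin r × Fin 2]→ₗ[K] K) : Prop :=
  ∀ v, z (fun k => (F ^ s) (v k)) = (q : K) ^ (r * s) * z v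

end Pool.Agent.W547.HR
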