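import Pool.Agent.W547.HR.Main

/-!
# The standard conjecture of Hodge type for ordinary abelian varieties: the families
-/

set_option linter.unusedSectionVars false
set_option linter.unusedVariables false

namespace Pool.Agent.W547.HR

open NumberField Pool.Agent.H204R3.CM Pool.Agent.W547.KB Pool.Agent.W547.LD Pool.Agent.W530.NF
open Equiv Module

noncomputable section

theorem generated_reindex {X : CMAV} {K V : Type} [Field K] [AddCommGroup V] [Module K V]
    (C : Comparison X K V) {κ κ' : Type} (e : κ ≃ κ') (z : V [⋀^κ]→ₗ[K] K)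
    (h : LN.IsGenerated C (z.domDomCongr e)) : LN.IsGenerated C z := by
  obtain ⟨n, c, g, hg, hz⟩ := h
  refine ⟨n, c, fun i => (g i).domDomCongr e.symm, fun i => DWRing.reindex _ _ (hg i), fun v => ?_⟩
  have h1 := hz (fun k => v (e.symm k))
  have h2 : (z.domDomCongr e) (fun k => C.ι (v (e.symm k))) = z (fun k => C.ι (v k)) := by
    rw [AlternatingMap.domDomCongr_apply]
    congr 1
    funext k
    simp
  rw [h2] at h1
  exact h1

/-- The standard conjecture of Hodge type for an ordinary abelian variety such that the Hodge ring of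
the canonical lift is generated by divisors and by pull-backs of split Weil classes. -/
theorem hodgeStandard (X : CMAV)
    (hring : ∀ {κ : Type} [Finite κ] (f : X.H1 [⋀^κ]→ₗ[ℚ] ℚ), IsHodge X.per f → DWRing X κ f)
    (p : ℕ) [Fact p.Prime] (a : ℕ) (ha : 0 < a) (ν : PadicAlgCl p ≃+* ℂ) (π : X.H1)
    (hπ : LN.IsCanonicalLift p a ν X π) {K V : Type} [Field K] [CharZero K] [AddCommGroup V]
    [Module K V] (C : Comparison X K V) (F : V →ₗ[K] V) (hF : LN.IsFrobeniusMap C π F)
    {E : X.H1 → X.H1 → ℚ} (hE : IsPolarization X E) (r m : ℕ)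
    (hrm : 2 * (2 * r + m) = finrank ℚ X.H1) (z : V [⋀^Fin r × Fin 2]→ₗ[K] K) (s : ℕ) (hs : 0 < s)
    (htate : IsTateOver F (p ^ a) s z) (hrat : HasRationalNumbers C z)
    (hprim : IsPrimitive C E m z) (hz : z ≠ 0) : IsPositive C E m z := by
  have hp : p.Prime := Fact.out
  have hST : ShimuraTaniyama X (TF.absC p ν) (p ^ a) π := by
    constructor
    · intro i φ hφ
      rw [TF.absC_cast]
      exact hπ.slope_one i φ hφ
    · intro i φ hφ
      exact hπ.slope_zero i φ hφ
  have hw : TF.absC p ν ((p ^ a : ℕ) : ℂ) < 1 := by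
    rw [TF.absC_cast, norm_pow, TF.norm_p]
    refine pow_lt_one₀ (by positivity) ?_ ha.ne'
    rw [inv_lt_one₀ (by exact_mod_cast hp.pos)]
    exact_mod_cast hp.one_lt
  have hFs : ∀ (N : ℕ) (x : X.H1), (F ^ N) (C.ι x) = C.ι (π ^ N * x) := by
    intro N
    induction N with
    | zero =>
      intro x
      simp
    | succ N ih =>
      intro x
      rw [pow_succ', Module.End.mul_apply, ih, pow_succ', mul_assoc]
      exact hF _
  have hgen : LN.IsGenerated C z := by
    let e : Fin r × Fin 2 ≃ Fin (2 * r) :=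
      Fintype.equivFinOfCardEq (by rw [Fintype.card_prod, Fintype.card_fin, Fintype.card_fin,
        mul_comm])
    refine generated_reindex C e z ?_
    refine LN.generated_of_ring X hring C (TF.absC p ν) (p ^ a)
      (pow_pos hp.pos a).ne' hw π hST s r hs.ne' _ fun v => ?_
    have h1 := htate (fun k => C.ι (v (e k)))
    simp only [hFs s] at h1
    exact h1
  exact positive_of_generated X C hE r m hrm z hgen hrat hprim hz

/-- Powers of ordinary abelian varieties of dimension at most five. -/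
theorem hodgeStandard_five (Y : CMAV) (hY : finrank ℚ Y.H1 ≤ 10) (n : ℕ)
    (p : ℕ) [Fact p.Prime] (a : ℕ) (ha : 0 < a) (ν : PadicAlgCl p ≃+* ℂ) (π : (powerX Y n).H1)
    (hπ : LN.IsCanonicalLift p a ν (powerX Y n) π) {K V : Type} [Field K] [CharZero K]
    [AddCommGroup V] [Module K V] (C : Comparison (powerX Y n) K V) (F : V →ₗ[K] V)
    (hF : LN.IsFrobeniusMap C π F) {E : (powerX Y n).H1 → (powerX Y n).H1 → ℚ}
    (hE : IsPolarization (powerX Y n) E) (r m : ℕ)
    (hrm : 2 * (2 * r + m) = finrank ℚ (powerX Y n).H1) (z : V [⋀^Fin r × Fin 2]→ₗ[K] K) (s : ℕ)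
    (hs : 0 < s) (htate : IsTateOver F (p ^ a) s z) (hrat : HasRationalNumbers C z)
    (hprim : IsPrimitive C E m z) (hz : z ≠ 0) : IsPositive C E m z :=
  hodgeStandard (powerX Y n) (fun f hf => ring_five Y hY n f hf) p a ha ν π hπ C F hF hE r m hrm z s
    hs htate hrat hprim hz

/-- Products of copies of an ordinary abelian variety with complex multiplication by a field of
degree at most fourteen. -/
theorem hodgeStandard_seven (A : CMPair) (hA : finrank ℚ A.E ≤ 14) (X : CMAV)
    (hX : ∀ i, X.factor i = A)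
    (p : ℕ) [Fact p.Prime] (a : ℕ) (ha : 0 < a) (ν : PadicAlgCl p ≃+* ℂ) (π : X.H1)
    (hπ : LN.IsCanonicalLift p a ν X π) {K V : Type} [Field K] [CharZero K] [AddCommGroup V]
    [Module K V] (C : Comparison X K V) (F : V →ₗ[K] V) (hF : LN.IsFrobeniusMap C π F)
    {E : X.H1 → X.H1 → ℚ} (hE : IsPolarization X E) (r m : ℕ)
    (hrm : 2 * (2 * r + m) = finrank ℚ X.H1) (z : V [⋀^Fin r × Fin 2]→ₗ[K] K) (s : ℕ) (hs : 0 < s)
    (htate : IsTateOver F (p ^ a) s z) (hrat : HasRationalNumbers C z)
    (hprim : IsPrimitive C E m z) (hz : z ≠ 0) : IsPositive C E m z :=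
  hodgeStandard X (fun f hf => TM.ring_of_hodge_copies A hA X hX f hf) p a ha ν π hπ C F hF hE r m
    hrm z s hs htate hrat hprim hz

/-- Products of ordinary abelian varieties with small simple factors. -/
theorem hodgeStandard_small (X : CMAV) (hX : LN.SmallFactors X)
    (p : ℕ) [Fact p.Prime] (a : ℕ) (ha : 0 < a) (ν : PadicAlgCl p ≃+* ℂ) (π : X.H1)
    (hπ : LN.IsCanonicalLift p a ν X π) {K V : Type} [Field K] [CharZero K] [AddCommGroup V]
    [Module K V] (C : Comparison X K V) (F : V →ₗ[K] V) (hF : LN.IsFrobeniusMap C π F)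
    {E : X.H1 → X.H1 → ℚ} (hE : IsPolarization X E) (r m : ℕ)
    (hrm : 2 * (2 * r + m) = finrank ℚ X.H1) (z : V [⋀^Fin r × Fin 2]→ₗ[K] K) (s : ℕ) (hs : 0 < s)
    (htate : IsTateOver F (p ^ a) s z) (hrat : HasRationalNumbers C z)
    (hprim : IsPrimitive C E m z) (hz : z ≠ 0) : IsPositive C E m z :=
  hodgeStandard X (fun f hf => LN.ring_small X hX f hf) p a ha ν π hπ C F hF hE r m
    hrm z s hs htate hrat hprim hz

end

end Pool.Agent.W547.HR
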