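import Pool.Agent.W547.HR.Eval

/-!
# The Hodge-Riemann relations in coordinates
-/

set_option linter.unusedSectionVars false
set_option linter.unusedVariables false

namespace Pool.Agent.W547.HR

open ExteriorAlgebra Equiv

noncomputable section

/-- The number `2 m`, defined by recursion. -/
def len : ℕ → ℕ
  | 0 => 0
  | m + 1 => 2 + len m

theorem len_eq (m : ℕ) : len m = 2 * m := by
  induction m with
  | zero => rfl
  | succ m ih =>
    change 2 + len m = _
    rw [ih]
    ring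

/-- The first pair and the other pairs. -/
def gE (m : ℕ) : Fin 2 ⊕ (Fin m × Fin 2) ≃ Fin (m + 1) × Fin 2 where
  toFun := Sum.elim (fun j => (0, j)) (fun p => (p.1.succ, p.2))
  invFun p := Fin.cases (Sum.inl p.2) (fun k => Sum.inr (k, p.2)) p.1
  left_inv := by
    rintro (j | ⟨k, j⟩)
    · rfl
    · rfl
  right_inv := by
    rintro ⟨k, j⟩
    refine Fin.cases ?_ (fun k => ?_) k
    · rfl
    · rfl

/-- The enumeration of `Fin m × Fin 2`. -/
def en : (m : ℕ) → Fin (len m) ≃ Fin m × Fin 2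
  | 0 => Equiv.equivOfIsEmpty (Fin 0) (Fin 0 × Fin 2)
  | m + 1 => (addE (Equiv.refl (Fin 2)) (en m)).trans (gE m)

section pw

variable {H : Type} [AddCommGroup H] [Module ℝ H]

/-- The form `∏ k, L (v (k, 0), v (k, 1))`. -/
def pw (L : MultilinearMap ℝ (fun _ : Fin 2 => H) ℝ) :
    (m : ℕ) → MultilinearMap ℝ (fun _ : Fin m × Fin 2 => H) ℝ
  | 0 => MultilinearMap.constOfIsEmpty ℝ _ 1
  | m + 1 => (mulM L (pw L m)).domDomCongr (gE m)

theorem pw_apply (L : MultilinearMap ℝ (fun _ : Fin 2 => H) ℝ) (m : ℕ) (v : Fin m × Fin 2 → H) :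
    pw L m v = ∏ k : Fin m, L (fun j => v (k, j)) := by
  induction m with
  | zero => simp [pw]
  | succ m ih =>
    rw [Fin.prod_univ_succ]
    change mulM L (pw L m) (fun i => v (gE m i)) = _
    rw [mulM_apply, ih]
    rfl

end pw

variable {ι : Type} [Fintype ι] [DecidableEq ι]

theorem coef_mulM {P Q : Type} (g : MultilinearMap ℝ (fun _ : P => ι → ℝ) ℝ)
    (h : MultilinearMap ℝ (fun _ : Q => ι → ℝ) ℝ) : coef (mulM g h) = fun s =>
      coef g (fun p => s (Sum.inl p)) * coef h (fun q => s (Sum.inr q)) := rfl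

theorem cls_mulM {P Q : Type} [Fintype P] [DecidableEq P] [Fintype Q] [DecidableEq Q] {N M : ℕ}
    (e : Fin N ≃ P) (f : Fin M ≃ Q) (g : MultilinearMap ℝ (fun _ : P => ι → ℝ) ℝ)
    (h : MultilinearMap ℝ (fun _ : Q => ι → ℝ) ℝ) :
    cls (addE e f) (coef (mulM g h)) = cls e (coef g) * cls f (coef h) := by
  rw [cls_mul, coef_mulM]

/-- Twice the element of degree two defined by a form. -/
def E2 (L : MultilinearMap ℝ (fun _ : Fin 2 => ι → ℝ) ℝ) : A ι := cls (Equiv.refl (Fin 2)) (coef L)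

theorem cls_pw (L : MultilinearMap ℝ (fun _ : Fin 2 => ι → ℝ) ℝ) (m : ℕ) :
    cls (en m) (coef (pw L m)) = E2 L ^ m := by
  induction m with
  | zero =>
    rw [pow_zero, cls]
    have h1 : ∀ s : Fin 0 × Fin 2 → ι, coef (pw L 0) s • ιMulti ℝ (len 0)
        (fun i => (Pi.single (s (en 0 i)) 1 : ι → ℝ)) = 1 := by
      intro s
      have h2 : coef (pw L 0) s = 1 := rfl
      rw [h2, one_smul]
      exact ιMulti_zero_apply _
    rw [Finset.sum_congr rfl fun s _ => h1 s, Finset.sum_const, Finset.card_univ]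
    simp
  | succ m ih =>
    rw [pow_succ', ← ih, E2, ← cls_mulM]
    exact cls_reindex (addE (Equiv.refl (Fin 2)) (en m)) (gE m) (coef (mulM L (pw L m)))

/-- The element of degree two defined by a form. -/
def om (L : MultilinearMap ℝ (fun _ : Fin 2 => ι → ℝ) ℝ) : A ι := (1 / 2 : ℝ) • E2 L

theorem E2_eq (L : MultilinearMap ℝ (fun _ : Fin 2 => ι → ℝ) ℝ) : E2 L = (2 : ℝ) • om L := by
  rw [om, smul_smul]
  norm_num

theorem E2_sum (L : MultilinearMap ℝ (fun _ : Fin 2 => ι → ℝ) ℝ) : E2 L =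
    ∑ s : Fin 2 → ι, coef L s • (ExteriorAlgebra.ι ℝ (Pi.single (s 0) 1 : ι → ℝ) *
      ExteriorAlgebra.ι ℝ (Pi.single (s 1) 1 : ι → ℝ)) := by
  rw [E2, cls]
  refine Finset.sum_congr rfl fun s _ => ?_
  congr 1
  rw [ιMulti_succ_apply, ιMulti_succ_apply, ιMulti_zero_apply, mul_one]
  rfl

theorem isEven_E2 (L : MultilinearMap ℝ (fun _ : Fin 2 => ι → ℝ) ℝ) : IsEven (E2 L) := by
  rw [E2_sum]
  exact IsEven.sum _ _ fun s _ => (isEven_pair _ _).smul _

theorem isEven_om (L : MultilinearMap ℝ (fun _ : Fin 2 => ι → ℝ) ℝ) : IsEven (om L) :=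
  (isEven_E2 L).smul _

theorem D_E2 (L : MultilinearMap ℝ (fun _ : Fin 2 => ι → ℝ) ℝ) (v : ι → ℝ) : D v (E2 L) =
    ∑ s : Fin 2 → ι, coef L s • (v (s 0) • ExteriorAlgebra.ι ℝ (Pi.single (s 1) 1 : ι → ℝ) -
      v (s 1) • ExteriorAlgebra.ι ℝ (Pi.single (s 0) 1 : ι → ℝ)) := by
  rw [E2_sum, map_sum]
  refine Finset.sum_congr rfl fun s _ => ?_
  rw [map_smul, D_ι_mul, D_ι, ← Algebra.commutes, ← Algebra.smul_def, dp_single, dp_single]

/-- `D (J u) ω = u` if `L (J u, w) = ∑ u i * w i`. -/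
theorem D_om (L : MultilinearMap ℝ (fun _ : Fin 2 => ι → ℝ) ℝ) (hL : ∀ a b, L ![a, b] = -L ![b, a])
    (u v : ι → ℝ) (h : ∀ w, L ![v, w] = ∑ i, u i * w i) : D v (om L) = ExteriorAlgebra.ι ℝ u := by
  have h0 : ∀ s : Fin 2 → ι, coef L s = L ![Pi.single (s 0) 1, Pi.single (s 1) 1] := by
    intro s
    unfold coef
    congr 1
    funext p
    fin_cases p <;> rfl
  have hv : v = ∑ i, v i • (Pi.single i (1 : ℝ) : ι → ℝ) := pi_eq_sum_univ' v
  have hu : ∀ i, L ![v, Pi.single i 1] = u i := by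
    intro i
    rw [h]
    simp [Pi.single_apply]
  have hlin : ∀ b : ι → ℝ, L ![v, b] = ∑ i, v i * L ![Pi.single i 1, b] := by
    intro b
    have h1 : ∀ a : ι → ℝ, L ![a, b] = L (Function.update ![0, b] 0 a) := by
      intro a
      congr 1
      funext p
      fin_cases p <;> simp
    have h2 : L (Function.update ![0, b] 0 v) = ∑ i, v i * L (Function.update ![0, b] 0
        (Pi.single i 1)) := by
      conv_lhs => rw [hv]
      rw [L.map_update_sum]
      refine Finset.sum_congr rfl fun i _ => ?_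
      rw [L.map_update_smul, smul_eq_mul]
    rw [h1, h2]
    refine Finset.sum_congr rfl fun i _ => ?_
    rw [h1]
  have hsum : ∀ F : (Fin 2 → ι) → A ι, ∑ s : Fin 2 → ι, F s = ∑ i : ι, ∑ j : ι, F ![i, j] := by
    intro F
    rw [← Finset.sum_product']
    refine Fintype.sum_equiv (finTwoArrowEquiv ι) _ _ fun s => ?_
    congr 1
    funext p
    fin_cases p <;> rfl
  have key : D v (E2 L) = (2 : ℝ) • ExteriorAlgebra.ι ℝ u := by
    rw [D_E2, hsum]
    have h3 : ∀ i j : ι, coef L ![i, j] • (v (![i, j] 0) •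
        ExteriorAlgebra.ι ℝ (Pi.single (![i, j] 1) 1 : ι → ℝ) - v (![i, j] 1) •
        ExteriorAlgebra.ι ℝ (Pi.single (![i, j] 0) 1 : ι → ℝ)) =
        (v i * L ![Pi.single i 1, Pi.single j 1]) •
          ExteriorAlgebra.ι ℝ (Pi.single j 1 : ι → ℝ) +
        (v j * L ![Pi.single j 1, Pi.single i 1]) •
          ExteriorAlgebra.ι ℝ (Pi.single i 1 : ι → ℝ) := by
      intro i j
      rw [h0]
      change L ![Pi.single i 1, Pi.single j 1] • (v i • _ - v j • _) = _
      rw [smul_sub, smul_smul, smul_smul, sub_eq_add_neg, ← neg_smul, mul_comm (v i), mul_comm (v j),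
        hL (Pi.single j 1) (Pi.single i 1), neg_mul]
      rfl
    simp only [h3, Finset.sum_add_distrib]
    have h4 : ∑ i : ι, ∑ j : ι, (v i * L ![Pi.single i 1, Pi.single j 1]) •
        ExteriorAlgebra.ι ℝ (Pi.single j 1 : ι → ℝ) = ExteriorAlgebra.ι ℝ u := by
      rw [Finset.sum_comm]
      conv_rhs => rw [show u = ∑ j, u j • (Pi.single j (1 : ℝ) : ι → ℝ) from pi_eq_sum_univ' u]
      rw [map_sum]
      refine Finset.sum_congr rfl fun j _ => ?_
      rw [← Finset.sum_smul, ← hlin, hu, map_smul]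
    have h5 : ∑ i : ι, ∑ j : ι, (v j * L ![Pi.single j 1, Pi.single i 1]) •
        ExteriorAlgebra.ι ℝ (Pi.single i 1 : ι → ℝ) = ExteriorAlgebra.ι ℝ u := by
      rw [← h4, Finset.sum_comm]
    rw [h4, h5, two_smul]
  rw [om, map_smul, key, smul_smul]
  norm_num

/-- The sum of the squares of the coefficients. -/
def normSq {P : Type} [Fintype P] [DecidableEq P] (x : MultilinearMap ℝ (fun _ : P => ι → ℝ) ℝ) :
    ℝ := ∑ s : P → ι, coef x s ^ 2

theorem normSq_pos {P : Type} [Fintype P] [DecidableEq P]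
    (x : MultilinearMap ℝ (fun _ : P => ι → ℝ) ℝ) (hx : x ≠ 0) : 0 < normSq x := by
  refine lt_of_le_of_ne (Finset.sum_nonneg fun s _ => sq_nonneg _) ?_
  intro h
  have h1 := (Finset.sum_eq_zero_iff_of_nonneg fun s _ => sq_nonneg (coef x s)).1 h.symm
  refine hx (MultilinearMap.ext fun v => ?_)
  rw [apply_eq_sum]
  refine Finset.sum_eq_zero fun s _ => ?_
  rw [eq_zero_of_pow_eq_zero (h1 s (Finset.mem_univ s)), zero_mul]

/-- The alternating sum of an alternating form. -/
theorem altSum_alternating {P H : Type} [Fintype P] [DecidableEq P] [AddCommGroup H] [Module ℝ H]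
    (x : H [⋀^P]→ₗ[ℝ] ℝ) (v : P → H) :
    altSum x.toMultilinearMap v = (Fintype.card (Perm P) : ℝ) * x v := by
  unfold altSum
  have h1 : ∀ σ : Perm P, ((Perm.sign σ : ℤ) : ℝ) * x.toMultilinearMap (fun p => v (σ p)) = x v := by
    intro σ
    have h2 := x.map_perm v σ
    change ((Perm.sign σ : ℤ) : ℝ) * x (v ∘ σ) = x v
    rw [h2, Units.smul_def, zsmul_eq_mul, ← mul_assoc, ← Int.cast_mul, ← Units.val_mul,
      Int.units_mul_self, Units.val_one, Int.cast_one, one_mul]
  rw [Finset.sum_congr rfl fun σ _ => h1 σ, Finset.sum_const, Finset.card_univ, nsmul_eq_mul]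

theorem commute_E2 (L : MultilinearMap ℝ (fun _ : Fin 2 => ι → ℝ) ℝ) (m : ℕ) (b : A ι) :
    om L ^ m * b = b * om L ^ m :=
  ((show Commute (om L) b from (isEven_om L).comm b).pow_left m).eq

theorem E2_pow (L : MultilinearMap ℝ (fun _ : Fin 2 => ι → ℝ) ℝ) (m : ℕ) :
    E2 L ^ m = (2 : ℝ) ^ m • om L ^ m := by
  rw [E2_eq, smul_pow]

/-- The positive constant in the Hodge-Riemann relations. -/
def cst (r m : ℕ) (x : MultilinearMap ℝ (fun _ : Fin r × Fin 2 => ι → ℝ) ℝ) : ℝ :=
  (m.factorial : ℝ) * Fintype.card (Perm (Fin r × Fin 2)) * normSq x /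
    ((m + len r).factorial * 2 ^ (len r))

theorem cst_pos (r m : ℕ) (x : MultilinearMap ℝ (fun _ : Fin r × Fin 2 => ι → ℝ) ℝ) (hx : x ≠ 0) :
    0 < cst r m x := by
  have h1 := normSq_pos x hx
  have h2 : 0 < (Fintype.card (Perm (Fin r × Fin 2)) : ℝ) :=
    Nat.cast_pos.2 Fintype.card_pos
  have h3 : (0 : ℝ) < m.factorial := Nat.cast_pos.2 m.factorial_pos
  have h4 : (0 : ℝ) < (m + len r).factorial := Nat.cast_pos.2 (m + len r).factorial_pos
  unfold cst
  positivity

/-- The Hodge-Riemann relations in coordinates. -/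
theorem hodgeRiemann (L : MultilinearMap ℝ (fun _ : Fin 2 => ι → ℝ) ℝ)
    (hL : ∀ a b, L ![a, b] = -L ![b, a]) (J : (ι → ℝ) → (ι → ℝ))
    (hJ : ∀ u w, L ![J u, w] = ∑ i, u i * w i) (r m : ℕ)
    (x : (ι → ℝ) [⋀^Fin r × Fin 2]→ₗ[ℝ] ℝ) (hxJ : ∀ v, x (fun p => J (v p)) = x v)
    (hprim : ∀ v, altSum (mulM x.toMultilinearMap (pw L (m + 1))) v = 0)
    (v : (Fin r × Fin 2) ⊕ ((Fin r × Fin 2) ⊕ (Fin m × Fin 2)) → ι → ℝ) :
    (-1) ^ r * altSum (mulM x.toMultilinearMap (mulM x.toMultilinearMap (pw L m))) v =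
      cst r m x.toMultilinearMap * altSum (mulM (pw L r) (mulM (pw L r) (pw L m))) v := by
  set X := x.toMultilinearMap with hX
  set y : A ι := cls (en r) (coef X) with hy
  set w : A ι := om L with hw
  have hw1 : IsEven w := isEven_om L
  -- primitivity
  have h1 : w ^ (m + 1) * y = 0 := by
    have h2 : cls (addE (en r) (en (m + 1))) (coef (mulM X (pw L (m + 1)))) = 0 :=
      cls_eq_zero _ _ fun s => hprim _
    rw [cls_mulM, cls_pw, E2_pow, mul_smul_comm, ← commute_E2] at h2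
    exact (smul_eq_zero.1 h2).resolve_left (pow_ne_zero _ two_ne_zero)
  -- the product
  have h2 : ((m + len r).factorial : ℝ) • (y * (w ^ m * y)) =
      ((-1) ^ r * m.factorial * Fintype.card (Perm (Fin r × Fin 2)) * normSq X) •
        w ^ (m + len r) := by
    have h3 : ∀ s : Fin r × Fin 2 → ι, ((m + len r).factorial : ℝ) •
        (ιMulti ℝ (len r) (fun i => (Pi.single (s (en r i)) 1 : ι → ℝ)) * (w ^ m * y)) =
        ((-1) ^ r * m.factorial * (Fintype.card (Perm (Fin r × Fin 2)) * coef X s)) •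
          w ^ (m + len r) := by
      intro s
      have h4 := main_step hw1 (len r) m y h1 (fun i => J (Pi.single (s (en r i)) 1))
        (fun i => Pi.single (s (en r i)) 1) (fun i => D_om L hL _ _ (hJ _))
      have h5 : Dm (len r) (fun i => J (Pi.single (s (en r i)) 1)) y =
          algebraMap ℝ (A ι) (Fintype.card (Perm (Fin r × Fin 2)) * coef X s) := by
        have h6 := Dm_cls (en r) X (fun p => J (Pi.single (s p) 1))
        rw [hX, altSum_alternating, hxJ] at h6
        exact h6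
      rw [h4, h5, ← Algebra.commutes, ← Algebra.smul_def, smul_smul, len_eq, sg_two]
    have h6 : ∀ z : A ι, y * z = ∑ s : Fin r × Fin 2 → ι, coef X s •
        (ιMulti ℝ (len r) (fun i => (Pi.single (s (en r i)) 1 : ι → ℝ)) * z) := by
      intro z
      rw [hy, cls, Finset.sum_mul]
      refine Finset.sum_congr rfl fun s _ => ?_
      rw [smul_mul_assoc]
    rw [h6 (w ^ m * y), Finset.smul_sum]
    simp only [smul_comm ((m + len r).factorial : ℝ), h3, smul_smul]
    rw [← Finset.sum_smul, normSq, Finset.mul_sum]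
    congr 1
    refine Finset.sum_congr rfl fun s _ => ?_
    ring
  -- evaluation
  have h3 : cls (addE (en r) (addE (en r) (en m))) (coef (mulM X (mulM X (pw L m)))) =
      (2 : ℝ) ^ m • (y * (w ^ m * y)) := by
    rw [cls_mulM, cls_mulM, cls_pw, E2_pow, mul_smul_comm, mul_smul_comm, ← commute_E2]
  have h4 : cls (addE (en r) (addE (en r) (en m))) (coef (mulM (pw L r) (mulM (pw L r) (pw L m)))) =
      (2 : ℝ) ^ (m + len r) • w ^ (m + len r) := by
    rw [cls_mulM, cls_mulM, cls_pw, cls_pw, ← pow_add, ← pow_add, E2_pow, len_eq]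
    congr 2 <;> ring
  have h5 := Dm_cls (addE (en r) (addE (en r) (en m))) (mulM X (mulM X (pw L m))) v
  have h6 := Dm_cls (addE (en r) (addE (en r) (en m))) (mulM (pw L r) (mulM (pw L r) (pw L m))) v
  rw [h3] at h5
  rw [h4] at h6
  have h7 : ((m + len r).factorial : ℝ) ≠ 0 := Nat.cast_ne_zero.2 (Nat.factorial_ne_zero _)
  have h8 : (2 : ℝ) ^ (len r) ≠ 0 := pow_ne_zero _ two_ne_zero
  have h9 : ((m + len r).factorial * 2 ^ (len r) : ℝ) • ((2 : ℝ) ^ m • (y * (w ^ m * y))) =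
      ((-1) ^ r * m.factorial * Fintype.card (Perm (Fin r × Fin 2)) * normSq X) •
        ((2 : ℝ) ^ (m + len r) • w ^ (m + len r)) := by
    rw [smul_smul, smul_smul]
    have h10 : ((m + len r).factorial * 2 ^ (len r) * 2 ^ m : ℝ) =
        2 ^ (m + len r) * (m + len r).factorial := by
      rw [pow_add]
      ring
    rw [h10, ← smul_smul, h2, smul_smul]
    congr 1
    ring
  have h10 := congrArg (Dm _ (fun i => v (addE (en r) (addE (en r) (en m)) i))) h9
  rw [LinearMap.map_smul _ ((m + len r).factorial * 2 ^ (len r) : ℝ), h5,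
    LinearMap.map_smul _ ((-1) ^ r * m.factorial * Fintype.card (Perm (Fin r × Fin 2)) * normSq X),
    h6, Algebra.smul_def, Algebra.smul_def, ← map_mul, ← map_mul] at h10
  have h11 := (algebraMap ℝ (A ι)).injective h10
  rw [cst]
  field_simp
  have h12 : ((-1 : ℝ) ^ r) * (-1) ^ r = 1 := by rw [← mul_pow]; norm_num
  linear_combination (-1) ^ r * h11 + m.factorial * Fintype.card (Perm (Fin r × Fin 2)) *
    normSq X * altSum (mulM (pw L r) (mulM (pw L r) (pw L m))) v * h12

end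

end Pool.Agent.W547.HR
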