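import Mathlib

/-!
# Contractions in the exterior algebra and the computation behind the Hodge-Riemann relations
-/

set_option linter.unusedSectionVars false
set_option linter.unusedVariables false

namespace Pool.Agent.W547.HR

open ExteriorAlgebra

noncomputable section

variable {ι : Type} [Fintype ι] [DecidableEq ι]

/-- The exterior algebra of the space of covectors, in coordinates. -/
abbrev A (ι : Type) : Type := ExteriorAlgebra ℝ (ι → ℝ)

/-- The functional `w ↦ ∑ v i * w i`. -/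
def dp (v : ι → ℝ) : Module.Dual ℝ (ι → ℝ) := ∑ i, v i • LinearMap.proj i

theorem dp_apply (v w : ι → ℝ) : dp v w = ∑ i, v i * w i := by
  simp [dp, LinearMap.sum_apply]

theorem dp_single (v : ι → ℝ) (i : ι) : dp v (Pi.single i 1) = v i := by
  simp [dp_apply, Pi.single_apply]

theorem dp_add (v w : ι → ℝ) : dp (v + w) = dp v + dp w := by
  ext u
  simp [dp_apply, add_mul, Finset.sum_add_distrib]

theorem dp_smul (a : ℝ) (v : ι → ℝ) : dp (a • v) = a • dp v := by
  ext u
  simp [dp_apply, mul_assoc, Finset.mul_sum]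

/-- Contraction by the vector `v`. -/
def D (v : ι → ℝ) : A ι →ₗ[ℝ] A ι := CliffordAlgebra.contractLeft (Q := 0) (dp v)

theorem D_ι_mul (v a : ι → ℝ) (b : A ι) :
    D v (ExteriorAlgebra.ι ℝ a * b) = dp v a • b - ExteriorAlgebra.ι ℝ a * D v b :=
  CliffordAlgebra.contractLeft_ι_mul (Q := 0) _ a b

theorem D_one (v : ι → ℝ) : D v 1 = 0 := CliffordAlgebra.contractLeft_one (Q := 0) _

theorem D_ι (v a : ι → ℝ) : D v (ExteriorAlgebra.ι ℝ a) = algebraMap ℝ (A ι) (dp v a) :=
  CliffordAlgebra.contractLeft_ι (Q := 0) _ _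

theorem D_algebraMap (v : ι → ℝ) (r : ℝ) : D v (algebraMap ℝ (A ι) r) = 0 :=
  CliffordAlgebra.contractLeft_algebraMap (Q := 0) _ _

theorem ι_anti (a b : ι → ℝ) : ExteriorAlgebra.ι ℝ a * ExteriorAlgebra.ι ℝ b =
    -(ExteriorAlgebra.ι ℝ b * ExteriorAlgebra.ι ℝ a) :=
  eq_neg_of_add_eq_zero_left (ι_add_mul_swap a b)

/-- Even elements for which contractions are derivations. -/
structure IsEven (x : A ι) : Prop where
  comm : ∀ b : A ι, x * b = b * x
  deriv : ∀ (v : ι → ℝ) (b : A ι), D v (x * b) = D v x * b + x * D v b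

theorem comm_of_ι {x : A ι} (h : ∀ a : ι → ℝ, x * ExteriorAlgebra.ι ℝ a =
    ExteriorAlgebra.ι ℝ a * x) (b : A ι) : x * b = b * x := by
  induction b using ExteriorAlgebra.induction with
  | algebraMap r => rw [Algebra.commutes]
  | ι a => exact h a
  | mul a b ha hb => rw [← mul_assoc, ha, mul_assoc, hb, mul_assoc]
  | add a b ha hb => rw [mul_add, add_mul, ha, hb]

theorem isEven_pair (a c : ι → ℝ) :
    IsEven (ExteriorAlgebra.ι ℝ a * ExteriorAlgebra.ι ℝ c : A ι) where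
  comm := comm_of_ι fun b => by
    rw [mul_assoc, ι_anti c b, mul_neg, ← mul_assoc, ι_anti a b, neg_mul, neg_neg, mul_assoc]
  deriv v b := by
    have h1 : D v (ExteriorAlgebra.ι ℝ a * ExteriorAlgebra.ι ℝ c : A ι) =
        dp v a • ExteriorAlgebra.ι ℝ c - dp v c • ExteriorAlgebra.ι ℝ a := by
      rw [D_ι_mul, D_ι, ← Algebra.commutes, ← Algebra.smul_def]
    rw [h1, mul_assoc, D_ι_mul, D_ι_mul, mul_sub, sub_mul, mul_smul_comm, smul_mul_assoc,
      smul_mul_assoc, mul_assoc]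
    abel

theorem IsEven.zero : IsEven (0 : A ι) where
  comm b := by rw [zero_mul, mul_zero]
  deriv v b := by simp

theorem IsEven.add {x y : A ι} (hx : IsEven x) (hy : IsEven y) : IsEven (x + y) where
  comm b := by rw [add_mul, mul_add, hx.comm, hy.comm]
  deriv v b := by
    rw [add_mul, map_add, map_add, hx.deriv, hy.deriv, add_mul, add_mul]
    abel

theorem IsEven.smul {x : A ι} (a : ℝ) (hx : IsEven x) : IsEven (a • x) where
  comm b := by rw [smul_mul_assoc, hx.comm, mul_smul_comm]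
  deriv v b := by
    rw [smul_mul_assoc, map_smul, map_smul, hx.deriv, smul_add, smul_mul_assoc, smul_mul_assoc]

theorem IsEven.sum {J : Type} (s : Finset J) (x : J → A ι) (hx : ∀ j ∈ s, IsEven (x j)) :
    IsEven (∑ j ∈ s, x j) := by
  classical
  induction s using Finset.induction_on with
  | empty => rw [Finset.sum_empty]; exact IsEven.zero
  | insert j s hj ih =>
    rw [Finset.sum_insert hj]
    exact (hx j (Finset.mem_insert_self j s)).add
      (ih fun k hk => hx k (Finset.mem_insert_of_mem hk))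

theorem IsEven.D_pow_mul {x : A ι} (hx : IsEven x) (v : ι → ℝ) (j : ℕ) (b : A ι) :
    D v (x ^ (j + 1) * b) = ((j : ℝ) + 1) • (D v x * (x ^ j * b)) + x ^ (j + 1) * D v b := by
  induction j with
  | zero => simp [hx.deriv]
  | succ j ih =>
    rw [pow_succ' x (j + 1), mul_assoc, hx.deriv, ih, mul_add, mul_smul_comm, ← mul_assoc x (D v x),
      hx.comm (D v x), mul_assoc (D v x) x, ← mul_assoc x (x ^ j), ← pow_succ', ← mul_assoc x,
      ← add_assoc]
    congr 1
    push_cast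
    rw [add_smul ((j : ℝ) + 1) 1, one_smul, add_comm]

/-- One step. -/
theorem step {x : A ι} (hx : IsEven x) (v : ι → ℝ) (m : ℕ) (y : A ι)
    (hy : x ^ (m + 1) * y = 0) : ((m : ℝ) + 1) • (D v x * (x ^ m * y)) =
      -(x ^ (m + 1) * D v y) ∧ x ^ (m + 1 + 1) * D v y = 0 := by
  constructor
  · have h1 := hx.D_pow_mul v m y
    rw [hy, map_zero] at h1
    exact eq_neg_of_add_eq_zero_left h1.symm
  · have h1 := hx.D_pow_mul v (m + 1) y
    have h2 : x ^ (m + 1 + 1) * y = 0 := by rw [pow_succ', mul_assoc, hy, mul_zero]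
    rw [h2, map_zero, hy, mul_zero, smul_zero, zero_add] at h1
    exact h1.symm

/-- Iterated contraction, `v 0` being applied first. -/
def Dm : (k : ℕ) → (Fin k → ι → ℝ) → A ι →ₗ[ℝ] A ι
  | 0, _ => LinearMap.id
  | k + 1, v => Dm k (Fin.tail v) ∘ₗ D (v 0)

theorem Dm_succ (k : ℕ) (v : Fin (k + 1) → ι → ℝ) (y : A ι) :
    Dm (k + 1) v y = Dm k (Fin.tail v) (D (v 0) y) := rfl

/-- The sign `(-1) ^ (k (k + 1) / 2)`. -/
def sg : ℕ → ℝ
  | 0 => 1
  | k + 1 => (-1) ^ (k + 1) * sg k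

theorem sg_two (r : ℕ) : sg (2 * r) = (-1) ^ r := by
  induction r with
  | zero => rfl
  | succ r ih =>
    change (-1) ^ (2 * r + 1 + 1) * ((-1) ^ (2 * r + 1) * sg (2 * r)) = _
    rw [ih, pow_succ (-1 : ℝ) r]
    have h1 : ((-1 : ℝ)) ^ (2 * r) = 1 := by rw [pow_mul]; norm_num
    rw [pow_succ, pow_succ, h1]
    ring

theorem ι_mul_ιMulti (k : ℕ) (a : ι → ℝ) (u : Fin k → ι → ℝ) :
    ExteriorAlgebra.ι ℝ a * ιMulti ℝ k u = ((-1 : ℝ) ^ k) • (ιMulti ℝ k u * ExteriorAlgebra.ι ℝ a) := by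
  induction k with
  | zero => simp
  | succ k ih =>
    rw [ιMulti_succ_apply, ← mul_assoc, ι_anti, neg_mul, mul_assoc, ih, mul_smul_comm, ← mul_assoc,
      pow_succ, mul_neg_one, neg_smul]

/-- The main computation. -/
theorem main_step {x : A ι} (hx : IsEven x) (k : ℕ) : ∀ (m : ℕ) (y : A ι)
    (_ : x ^ (m + 1) * y = 0) (v u : Fin k → ι → ℝ)
    (_ : ∀ i, D (v i) x = ExteriorAlgebra.ι ℝ (u i)),
    ((m + k).factorial : ℝ) • (ιMulti ℝ k u * (x ^ m * y)) =
      (sg k * m.factorial) • (x ^ (m + k) * Dm k v y) := by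
  induction k with
  | zero =>
    intro m y hy v u hu
    simp [sg, Dm]
  | succ k ih =>
    intro m y hy v u hu
    obtain ⟨h1, h2⟩ := step hx (v 0) m y hy
    have h3 := ih (m + 1) (D (v 0) y) h2 (Fin.tail v) (Fin.tail u) fun i => hu i.succ
    have h4 : ιMulti ℝ (k + 1) u =
        ((-1 : ℝ) ^ k) • (ιMulti ℝ k (Fin.tail u) * ExteriorAlgebra.ι ℝ (u 0)) := by
      rw [ιMulti_succ_apply]
      exact ι_mul_ιMulti k (u 0) (Fin.tail u)
    have h5 : ((m : ℝ) + 1) • (ιMulti ℝ k (Fin.tail u) * (ExteriorAlgebra.ι ℝ (u 0) *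
        (x ^ m * y))) = -(ιMulti ℝ k (Fin.tail u) * (x ^ (m + 1) * D (v 0) y)) := by
      rw [← mul_smul_comm, ← hu 0, h1, mul_neg]
    rw [Dm_succ, h4, smul_mul_assoc, mul_assoc]
    have h6 : ((m : ℝ) + 1) ≠ 0 := by positivity
    have h7 : m + (k + 1) = m + 1 + k := by ring
    rw [h7]
    refine smul_right_injective (A ι) h6 ?_
    change ((m : ℝ) + 1) • _ = ((m : ℝ) + 1) • _
    rw [smul_comm ((m : ℝ) + 1), smul_comm ((m : ℝ) + 1) ((-1 : ℝ) ^ k), h5, smul_neg, smul_neg,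
      smul_comm _ ((-1 : ℝ) ^ k), h3, smul_smul, smul_smul, ← neg_smul]
    congr 1
    simp only [sg, Nat.factorial_succ]
    push_cast
    ring

end

end Pool.Agent.W547.HR
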