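import Pool.Agent.W547.HR.Core
import Pool.Agent.W547.HR.Defs

/-!
# Evaluation of elements of the exterior algebra, and the class of a multilinear form
-/

set_option linter.unusedSectionVars false
set_option linter.unusedVariables false

namespace Pool.Agent.W547.HR

open ExteriorAlgebra Equiv

noncomputable section

variable {ι : Type} [Fintype ι] [DecidableEq ι]

theorem D_ιMulti (k : ℕ) (v : ι → ℝ) (φ : Fin (k + 1) → ι → ℝ) :
    D v (ιMulti ℝ (k + 1) φ) =
      ∑ i : Fin (k + 1), ((-1 : ℝ) ^ (i : ℕ) * dp v (φ i)) • ιMulti ℝ k (φ ∘ i.succAbove) := by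
  induction k with
  | zero =>
    rw [ιMulti_succ_apply, ιMulti_zero_apply, D_ι_mul, D_one]
    simp
  | succ k ih =>
    conv_rhs => rw [Fin.sum_univ_succ]
    rw [ιMulti_succ_apply, D_ι_mul, ih, Finset.mul_sum, sub_eq_add_neg, ← Finset.sum_neg_distrib]
    congr 1
    · simp only [Fin.val_zero, pow_zero, one_mul]
      rfl
    · refine Finset.sum_congr rfl fun i _ => ?_
      have h1 : ιMulti ℝ (k + 1) (φ ∘ i.succ.succAbove) =
          ExteriorAlgebra.ι ℝ (φ 0) * ιMulti ℝ k (Matrix.vecTail φ ∘ i.succAbove) := by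
        rw [ιMulti_succ_apply]
        congr 2
        funext j
        simp only [Matrix.vecTail, Function.comp_apply, Fin.succ_succAbove_succ]
      rw [h1, mul_smul_comm, ← neg_smul, Fin.val_succ, pow_succ]
      congr 1
      change -((-1) ^ (i : ℕ) * dp v (φ i.succ)) = _
      ring

theorem Dm_ιMulti (k : ℕ) (v φ : Fin k → ι → ℝ) :
    Dm k v (ιMulti ℝ k φ) =
      algebraMap ℝ (A ι) (Matrix.det (Matrix.of fun i j => dp (v i) (φ j))) := by
  induction k with
  | zero => simp [Dm]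
  | succ k ih =>
    rw [Dm_succ, D_ιMulti, map_sum, Matrix.det_succ_row_zero, map_sum]
    refine Finset.sum_congr rfl fun i _ => ?_
    rw [map_smul, ih, Algebra.smul_def, ← map_mul]
    rfl

/-- The class of a function on `P → ι` with respect to an enumeration of `P`. -/
def cls {P : Type} [Fintype P] [DecidableEq P] {N : ℕ} (e : Fin N ≃ P) (G : (P → ι) → ℝ) : A ι :=
  ∑ s : P → ι, G s • ιMulti ℝ N (fun i => Pi.single (s (e i)) 1)

/-- The coefficients of a multilinear form. -/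
def coef {P : Type} (g : MultilinearMap ℝ (fun _ : P => ι → ℝ) ℝ) (s : P → ι) : ℝ :=
  g (fun p => Pi.single (s p) 1)

theorem apply_eq_sum {P : Type} [Fintype P] [DecidableEq P] (g : MultilinearMap ℝ (fun _ : P => ι → ℝ) ℝ)
    (v : P → ι → ℝ) : g v = ∑ s : P → ι, coef g s * ∏ p, v p (s p) := by
  classical
  have h1 : v = fun p => ∑ i, v p i • (Pi.single i (1 : ℝ) : ι → ℝ) := by
    funext p
    exact pi_eq_sum_univ' (v p)
  conv_lhs => rw [h1]
  rw [g.map_sum]
  refine Finset.sum_congr rfl fun s _ => ?_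
  rw [g.map_smul_univ (fun p => v p (s p)) (fun p => Pi.single (s p) 1), smul_eq_mul, mul_comm]
  rfl

/-- Evaluation of the class of a multilinear form. -/
theorem Dm_cls {P : Type} [Fintype P] [DecidableEq P] {N : ℕ} (e : Fin N ≃ P)
    (g : MultilinearMap ℝ (fun _ : P => ι → ℝ) ℝ) (v : P → ι → ℝ) :
    Dm N (fun i => v (e i)) (cls e (coef g)) = algebraMap ℝ (A ι) (altSum g v) := by
  have h1 : ∀ s : P → ι, Dm N (fun i => v (e i))
      (ιMulti ℝ N (fun i => (Pi.single (s (e i)) 1 : ι → ℝ))) =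
      algebraMap ℝ (A ι) (∑ σ : Perm P, ((Perm.sign σ : ℤ) : ℝ) * ∏ p, v (σ p) (s p)) := by
    intro s
    rw [Dm_ιMulti]
    congr 1
    have h2 : ∑ σ : Perm P, ((Perm.sign σ : ℤ) : ℝ) * ∏ p, v (σ p) (s p) =
        Matrix.det (Matrix.of fun p q => v p (s q)) :=
      (Matrix.det_apply' (Matrix.of fun p q => v p (s q))).symm
    rw [h2, ← Matrix.det_submatrix_equiv_self e]
    congr 1
    ext i j
    simp [dp_single]
  have h2 : ∀ s : P → ι, Dm N (fun i => v (e i))
      (coef g s • ιMulti ℝ N (fun i => (Pi.single (s (e i)) 1 : ι → ℝ))) =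
      algebraMap ℝ (A ι) (coef g s *
        ∑ σ : Perm P, ((Perm.sign σ : ℤ) : ℝ) * ∏ p, v (σ p) (s p)) := by
    intro s
    rw [map_smul, h1, Algebra.smul_def, ← map_mul]
  rw [cls, map_sum, Finset.sum_congr rfl fun s _ => h2 s, ← map_sum]
  congr 1
  unfold altSum
  simp only [apply_eq_sum g, Finset.mul_sum]
  rw [Finset.sum_comm]
  refine Finset.sum_congr rfl fun σ _ => Finset.sum_congr rfl fun s _ => ?_
  ring

/-- A form whose alternating sum vanishes has class zero. -/
theorem cls_eq_zero {P : Type} [Fintype P] [DecidableEq P] {N : ℕ} (e : Fin N ≃ P)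
    (g : MultilinearMap ℝ (fun _ : P => ι → ℝ) ℝ)
    (h : ∀ s : P → ι, altSum g (fun p => (Pi.single (s p) 1 : ι → ℝ)) = 0) :
    cls e (coef g) = 0 := by
  have key : ∀ σ : Perm P, cls e (coef g) = ∑ s : P → ι,
      (((Perm.sign σ : ℤ) : ℝ) * coef g (fun p => s (σ p))) •
        ιMulti ℝ N (fun i => (Pi.single (s (e i)) 1 : ι → ℝ)) := by
    intro σ
    rw [cls]
    refine Fintype.sum_equiv (Equiv.arrowCongr σ (Equiv.refl ι)) _ _ fun s => ?_
    have h1 : ∀ p, (Equiv.arrowCongr σ (Equiv.refl ι)) s p = s (σ.symm p) := fun p => rfl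
    simp only [h1, Equiv.symm_apply_apply]
    have h2 : ιMulti ℝ N (fun i => (Pi.single (s (e i)) 1 : ι → ℝ)) =
        ((Perm.sign σ : ℤ) : ℝ) •
          ιMulti ℝ N (fun i => (Pi.single (s (σ.symm (e i))) 1 : ι → ℝ)) := by
      have h3 := (ιMulti ℝ N (M := ι → ℝ)).map_perm
        (fun i => (Pi.single (s (σ.symm (e i))) 1 : ι → ℝ)) (e.symm.permCongr σ)
      rw [Perm.sign_permCongr] at h3
      have h4 : (fun i => (Pi.single (s (σ.symm (e i))) 1 : ι → ℝ)) ∘ (e.symm.permCongr σ) =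
          fun i => (Pi.single (s (e i)) 1 : ι → ℝ) := by
        funext i
        simp [Equiv.permCongr_apply]
      rw [h4] at h3
      rw [h3, Units.smul_def, ← Int.cast_smul_eq_zsmul ℝ]
    rw [h2, smul_smul, mul_comm]
  have h5 : (Fintype.card (Perm P) : ℝ) • cls e (coef g) = 0 := by
    have h6 : ∑ σ : Perm P, cls e (coef g) = ∑ s : P → ι, (∑ σ : Perm P,
        ((Perm.sign σ : ℤ) : ℝ) * coef g (fun p => s (σ p))) •
          ιMulti ℝ N (fun i => (Pi.single (s (e i)) 1 : ι → ℝ)) := by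
      rw [Finset.sum_congr rfl fun σ _ => key σ, Finset.sum_comm]
      exact Finset.sum_congr rfl fun s _ => (Finset.sum_smul).symm
    rw [Finset.sum_const, Finset.card_univ, ← Nat.cast_smul_eq_nsmul ℝ] at h6
    rw [h6]
    refine Finset.sum_eq_zero fun s _ => ?_
    have h7 : ∑ σ : Perm P, ((Perm.sign σ : ℤ) : ℝ) * coef g (fun p => s (σ p)) = 0 := h s
    rw [h7, zero_smul]
  exact (smul_eq_zero.1 h5).resolve_left (Nat.cast_ne_zero.2 Fintype.card_ne_zero)

/-- The product of two multilinear forms. -/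
def mulM {P Q : Type} {H : Type} [AddCommGroup H] [Module ℝ H]
    (g : MultilinearMap ℝ (fun _ : P => H) ℝ) (h : MultilinearMap ℝ (fun _ : Q => H) ℝ) :
    MultilinearMap ℝ (fun _ : P ⊕ Q => H) ℝ :=
  (LinearMap.mul' ℝ ℝ).compMultilinearMap (g.domCoprod h)

theorem mulM_apply {P Q : Type} {H : Type} [AddCommGroup H] [Module ℝ H]
    (g : MultilinearMap ℝ (fun _ : P => H) ℝ) (h : MultilinearMap ℝ (fun _ : Q => H) ℝ)
    (v : P ⊕ Q → H) : mulM g h v = g (fun p => v (Sum.inl p)) * h (fun q => v (Sum.inr q)) := rfl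

/-- The enumeration of a sum. -/
def addE {P Q : Type} {N M : ℕ} (e : Fin N ≃ P) (f : Fin M ≃ Q) : Fin (N + M) ≃ P ⊕ Q :=
  finSumFinEquiv.symm.trans (Equiv.sumCongr e f)

theorem cls_mul {P Q : Type} [Fintype P] [DecidableEq P] [Fintype Q] [DecidableEq Q] {N M : ℕ} (e : Fin N ≃ P) (f : Fin M ≃ Q)
    (G : (P → ι) → ℝ) (H : (Q → ι) → ℝ) :
    cls e G * cls f H = cls (addE e f)
      (fun s : P ⊕ Q → ι => G (fun p => s (Sum.inl p)) * H (fun q => s (Sum.inr q))) := by
  classical
  rw [cls, cls, cls, Finset.sum_mul_sum, ← Finset.sum_product']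
  refine (Fintype.sum_equiv (Equiv.sumArrowEquivProdArrow P Q ι) _ _ fun s => ?_).symm
  have h1 : (Equiv.sumArrowEquivProdArrow P Q ι) s =
    ((fun p => s (Sum.inl p)), (fun q => s (Sum.inr q))) := rfl
  rw [h1]
  simp only
  rw [smul_mul_smul_comm, ιMulti_mul_ιMulti]
  congr 2
  funext i
  refine Fin.addCases (fun j => ?_) (fun j => ?_) i
  · rw [Fin.append_left]
    simp [addE]
  · rw [Fin.append_right]
    simp [addE]

theorem cls_reindex {P P' : Type} [Fintype P] [DecidableEq P] [Fintype P'] [DecidableEq P'] {N : ℕ} (e : Fin N ≃ P) (g : P ≃ P') (G : (P → ι) → ℝ) :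
    cls (e.trans g) (fun s : P' → ι => G (fun p => s (g p))) = cls e G := by
  classical
  rw [cls, cls]
  refine (Fintype.sum_equiv (Equiv.arrowCongr g (Equiv.refl ι)) _ _ fun s => ?_).symm
  have h1 : ∀ p, (Equiv.arrowCongr g (Equiv.refl ι)) s p = s (g.symm p) := fun p => rfl
  simp only [h1, Equiv.trans_apply, Equiv.symm_apply_apply]

end

end Pool.Agent.W547.HR
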