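import Pool.Agent.W547.HR.Vol

/-!
# The Hodge-Riemann relations on a complex vector space with a positive definite Hermitian form
-/

set_option linter.unusedSectionVars false
set_option linter.unusedVariables false

namespace Pool.Agent.W547.HR

open Equiv Module

noncomputable section

/-- A bilinear form as a multilinear form. -/
def bil {M : Type} [AddCommGroup M] [Module ℝ M] (f : M →ₗ[ℝ] M →ₗ[ℝ] ℝ) :
    MultilinearMap ℝ (fun _ : Fin 2 => M) ℝ where
  toFun v := f (v 0) (v 1)
  map_update_add' := by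
    intro _ v i x y
    fin_cases i <;> simp [Function.update]
  map_update_smul' := by
    intro _ v i a x
    fin_cases i <;> simp [Function.update]

variable {T : Type} [AddCommGroup T] [Module ℂ T]

/-- A positive definite Hermitian form. -/
structure IsHerm (H : T → T → ℂ) : Prop where
  linear : ∀ u', IsLinearMap ℂ fun u => H u u'
  symm : ∀ u u', H u' u = starRingEnd ℂ (H u u')
  pos : ∀ u, u ≠ 0 → 0 < (H u u).re

theorem IsHerm.add_left {H : T → T → ℂ} (hH : IsHerm H) (u u' w : T) :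
    H (u + u') w = H u w + H u' w := (hH.linear w).map_add u u'

theorem IsHerm.smul_left {H : T → T → ℂ} (hH : IsHerm H) (a : ℂ) (u w : T) :
    H (a • u) w = a * H u w := (hH.linear w).map_smul a u

theorem IsHerm.add_right {H : T → T → ℂ} (hH : IsHerm H) (w u u' : T) :
    H w (u + u') = H w u + H w u' := by
  rw [hH.symm (u + u') w, hH.add_left, map_add, ← hH.symm, ← hH.symm]

theorem IsHerm.smul_right {H : T → T → ℂ} (hH : IsHerm H) (a : ℝ) (w u : T) :
    H w (a • u) = a * H w u := by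
  have h1 : a • u = (a : ℂ) • u := (Complex.coe_smul a u).symm
  rw [h1, hH.symm ((a : ℂ) • u) w, hH.smul_left, map_mul, Complex.conj_ofReal, ← hH.symm]

theorem IsHerm.rsmul_left {H : T → T → ℂ} (hH : IsHerm H) (a : ℝ) (u w : T) :
    H (a • u) w = a * H u w := by
  have h1 : a • u = (a : ℂ) • u := (Complex.coe_smul a u).symm
  rw [h1, hH.smul_left]

/-- The real part, as a bilinear form. -/
def reB {H : T → T → ℂ} (hH : IsHerm H) : T →ₗ[ℝ] T →ₗ[ℝ] ℝ :=
  LinearMap.mk₂ ℝ (fun u w => (H u w).re)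
    (fun u u' w => by rw [hH.add_left, Complex.add_re])
    (fun a u w => by rw [hH.rsmul_left, Complex.re_ofReal_mul, smul_eq_mul])
    (fun u w w' => by rw [hH.add_right, Complex.add_re])
    (fun a u w => by rw [hH.smul_right, Complex.re_ofReal_mul, smul_eq_mul])

/-- The imaginary part, as a bilinear form. -/
def imB {H : T → T → ℂ} (hH : IsHerm H) : T →ₗ[ℝ] T →ₗ[ℝ] ℝ :=
  LinearMap.mk₂ ℝ (fun u w => (H u w).im)
    (fun u u' w => by rw [hH.add_left, Complex.add_im])
    (fun a u w => by rw [hH.rsmul_left, Complex.im_ofReal_mul, smul_eq_mul])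
    (fun u w w' => by rw [hH.add_right, Complex.add_im])
    (fun a u w => by rw [hH.smul_right, Complex.im_ofReal_mul, smul_eq_mul])

theorem imB_apply {H : T → T → ℂ} (hH : IsHerm H) (u w : T) : imB hH u w = (H u w).im := rfl

theorem reB_apply {H : T → T → ℂ} (hH : IsHerm H) (u w : T) : reB hH u w = (H u w).re := rfl

/-- An orthonormal basis for the real part. -/
theorem exists_orthonormal {H : T → T → ℂ} (hH : IsHerm H) [FiniteDimensional ℝ T] :
    ∃ b : Basis (Fin (finrank ℝ T)) ℝ T, ∀ i j, (H (b i) (b j)).re = if i = j then 1 else 0 := by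
  classical
  have hsymm : LinearMap.IsSymm (reB hH) := ⟨fun u w => by
    change (H u w).re = (H w u).re
    rw [hH.symm u w, Complex.conj_re]⟩
  obtain ⟨b0, hb0⟩ := LinearMap.BilinForm.exists_orthogonal_basis hsymm
  have hpos : ∀ i, 0 < (H (b0 i) (b0 i)).re := fun i => hH.pos _ (b0.ne_zero i)
  have hu : ∀ i, IsUnit ((√((H (b0 i) (b0 i)).re))⁻¹ : ℝ) := fun i =>
    (inv_ne_zero (Real.sqrt_ne_zero'.2 (hpos i))).isUnit
  refine ⟨b0.isUnitSMul hu, fun i j => ?_⟩
  rw [Basis.isUnitSMul_apply, Basis.isUnitSMul_apply, hH.rsmul_left, hH.smul_right,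
    Complex.re_ofReal_mul, Complex.re_ofReal_mul]
  split_ifs with h
  · subst h
    have h1 : √((H (b0 i) (b0 i)).re) * √((H (b0 i) (b0 i)).re) = (H (b0 i) (b0 i)).re :=
      Real.mul_self_sqrt (hpos i).le
    rw [← mul_assoc, ← mul_inv, h1, inv_mul_cancel₀ (hpos i).ne']
  · have h1 : (H (b0 i) (b0 j)).re = 0 := hb0 h
    rw [h1, mul_zero, mul_zero]

/-- The real-linear isomorphism given by the basis. -/
theorem herm_sum {H : T → T → ℂ} (hH : IsHerm H) [FiniteDimensional ℝ T]
    (b : Basis (Fin (finrank ℝ T)) ℝ T) (hb : ∀ i j, (H (b i) (b j)).re = if i = j then 1 else 0)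
    (u w : Fin (finrank ℝ T) → ℝ) :
    (H (b.equivFun.symm u) (b.equivFun.symm w)).re = ∑ i, u i * w i := by
  rw [← reB_apply hH, Basis.equivFun_symm_apply, Basis.equivFun_symm_apply]
  simp only [map_sum, map_smul, LinearMap.sum_apply, LinearMap.smul_apply, smul_eq_mul, reB_apply, hb]
  refine Finset.sum_congr rfl fun i _ => ?_
  rw [Finset.sum_eq_single i]
  · rw [if_pos rfl, mul_one, mul_comm]
  · intro j _ hj
    simp [hj]
  · intro h
    exact absurd (Finset.mem_univ i) h

theorem times_comp {P Q H H' R : Type} [CommRing R] (g : (P → H) → R) (h : (Q → H) → R)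
    (f : H' → H) (v : P ⊕ Q → H') : times g h (fun p => f (v p)) =
      times (fun w => g (fun p => f (w p))) (fun w => h (fun p => f (w p))) v := rfl

theorem altSum_comp {P H H' R : Type} [Fintype P] [DecidableEq P] [CommRing R] (g : (P → H) → R)
    (f : H' → H) (v : P → H') :
    altSum g (fun p => f (v p)) = altSum (fun w => g (fun p => f (w p))) v := rfl

/-- The Hodge-Riemann relations. -/
theorem torus_hodgeRiemann {H : T → T → ℂ} (hH : IsHerm H) [FiniteDimensional ℝ T] (r m : ℕ)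
    (ψ : T [⋀^Fin r × Fin 2]→ₗ[ℝ] ℝ) (hψ : ∀ u, ψ (fun l => Complex.I • u l) = ψ u) (hψ0 : ψ ≠ 0)
    (hprim : ∀ u, altSum (times ψ (powE (fun a b => (H a b).im) (m + 1))) u = 0) :
    ∃ c : ℝ, 0 < c ∧ ∀ u, (-1) ^ r *
      altSum (times ψ (times ψ (powE (fun a b => (H a b).im) m))) u =
        c * altSum (times (powE (fun a b => (H a b).im) r)
          (times (powE (fun a b => (H a b).im) r) (powE (fun a b => (H a b).im) m))) u := by
  classical
  obtain ⟨b, hb⟩ := exists_orthonormal hH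
  let Ψ : (Fin (finrank ℝ T) → ℝ) ≃ₗ[ℝ] T := b.equivFun.symm
  let L : MultilinearMap ℝ (fun _ : Fin 2 => Fin (finrank ℝ T) → ℝ) ℝ :=
    (bil (imB hH)).compLinearMap fun _ => Ψ.toLinearMap
  let J : (Fin (finrank ℝ T) → ℝ) → (Fin (finrank ℝ T) → ℝ) := fun u => Ψ.symm (Complex.I • Ψ u)
  have hLapp : ∀ v : Fin 2 → Fin (finrank ℝ T) → ℝ, L v = (H (Ψ (v 0)) (Ψ (v 1))).im := fun v => rfl
  have hΨJ : ∀ u, Ψ (J u) = Complex.I • Ψ u := fun u => Ψ.apply_symm_apply _
  have hL : ∀ a b, L ![a, b] = -L ![b, a] := by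
    intro a b
    rw [hLapp, hLapp]
    change (H (Ψ a) (Ψ b)).im = -(H (Ψ b) (Ψ a)).im
    rw [hH.symm (Ψ b) (Ψ a), Complex.conj_im]
  have hJ : ∀ u w, L ![J u, w] = ∑ i, u i * w i := by
    intro u w
    rw [hLapp]
    change (H (Ψ (J u)) (Ψ w)).im = _
    rw [hΨJ, hH.smul_left, Complex.I_mul_im]
    exact herm_sum hH b hb u w
  let x : (Fin (finrank ℝ T) → ℝ) [⋀^Fin r × Fin 2]→ₗ[ℝ] ℝ := ψ.compLinearMap Ψ.toLinearMap
  have hx : ∀ v, x v = ψ (fun p => Ψ (v p)) := fun v => rfl
  have hx0 : x.toMultilinearMap ≠ 0 := by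
    intro h
    refine hψ0 (AlternatingMap.ext fun v => ?_)
    have h1 : x (fun p => Ψ.symm (v p)) = 0 := congrArg (fun f => f (fun p => Ψ.symm (v p))) h
    rw [hx] at h1
    simpa using h1
  have hpw : ∀ k : ℕ, (pw L k : (Fin k × Fin 2 → _) → ℝ) = fun w =>
      powE (fun a b => (H a b).im) k (fun p => Ψ (w p)) := by
    intro k
    funext w
    rw [pw_apply]
    rfl
  have h1 : ∀ v, altSum (mulM x.toMultilinearMap (pw L (m + 1))) v = 0 := by
    intro v
    have h2 := hprim (fun p => Ψ (v p))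
    rw [altSum_comp] at h2
    rw [← h2]
    congr 1
    funext w
    rw [mulM_apply, hpw]
    rfl
  have h2 := fun v => hodgeRiemann L hL J hJ r m x (fun v => by
    rw [hx, hx]
    simp only [hΨJ]
    exact hψ _) h1 v
  refine ⟨cst r m x.toMultilinearMap, cst_pos r m _ hx0, fun u => ?_⟩
  have h3 := h2 (fun p => Ψ.symm (u p))
  have h4 : u = fun p => Ψ (Ψ.symm (u p)) := by
    funext p
    rw [Ψ.apply_symm_apply]
  rw [h4, altSum_comp, altSum_comp]
  have h5 : (mulM x.toMultilinearMap (mulM x.toMultilinearMap (pw L m)) : (_ → _) → ℝ) =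
      fun w => times ψ (times ψ (powE (fun a b => (H a b).im) m)) (fun p => Ψ (w p)) := by
    funext w
    rw [mulM_apply, mulM_apply, hpw]
    rfl
  have h6 : (mulM (pw L r) (mulM (pw L r) (pw L m)) : (_ → _) → ℝ) =
      fun w => times (powE (fun a b => (H a b).im) r)
          (times (powE (fun a b => (H a b).im) r) (powE (fun a b => (H a b).im) m))
            (fun p => Ψ (w p)) := by
    funext w
    rw [mulM_apply, mulM_apply, hpw, hpw]
    rfl
  rw [h5, h6] at h3
  exact h3

/-- The top power of the class of the Hermitian form is not zero. -/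
theorem torus_vol {H : T → T → ℂ} (hH : IsHerm H) [FiniteDimensional ℝ T] (r m : ℕ)
    (hrm : 2 * (r + (r + m)) ≤ finrank ℝ T) :
    ∃ u, altSum (times (powE (fun a b => (H a b).im) r)
      (times (powE (fun a b => (H a b).im) r) (powE (fun a b => (H a b).im) m))) u ≠ 0 := by
  classical
  obtain ⟨b, hb⟩ := exists_orthonormal hH
  let Ψ : (Fin (finrank ℝ T) → ℝ) ≃ₗ[ℝ] T := b.equivFun.symm
  let L : MultilinearMap ℝ (fun _ : Fin 2 => Fin (finrank ℝ T) → ℝ) ℝ :=
    (bil (imB hH)).compLinearMap fun _ => Ψ.toLinearMap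
  let J : (Fin (finrank ℝ T) → ℝ) → (Fin (finrank ℝ T) → ℝ) := fun u => Ψ.symm (Complex.I • Ψ u)
  have hLapp : ∀ v : Fin 2 → Fin (finrank ℝ T) → ℝ, L v = (H (Ψ (v 0)) (Ψ (v 1))).im := fun v => rfl
  have hΨJ : ∀ u, Ψ (J u) = Complex.I • Ψ u := fun u => Ψ.apply_symm_apply _
  have hL : ∀ a b, L ![a, b] = -L ![b, a] := by
    intro a b
    rw [hLapp, hLapp]
    change (H (Ψ a) (Ψ b)).im = -(H (Ψ b) (Ψ a)).im
    rw [hH.symm (Ψ b) (Ψ a), Complex.conj_im]
  have hJ : ∀ u w, L ![J u, w] = ∑ i, u i * w i := by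
    intro u w
    rw [hLapp]
    change (H (Ψ (J u)) (Ψ w)).im = _
    rw [hΨJ, hH.smul_left, Complex.I_mul_im]
    exact herm_sum hH b hb u w
  have hpw : ∀ k : ℕ, (pw L k : (Fin k × Fin 2 → _) → ℝ) = fun w =>
      powE (fun a b => (H a b).im) k (fun p => Ψ (w p)) := by
    intro k
    funext w
    rw [pw_apply]
    rfl
  obtain ⟨v, hv⟩ := exists_vol_ne_zero L hL J hJ r m (by rw [Fintype.card_fin]; exact hrm)
  refine ⟨fun p => Ψ (v p), ?_⟩
  rw [altSum_comp]
  have h6 : (mulM (pw L r) (mulM (pw L r) (pw L m)) : (_ → _) → ℝ) =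
      fun w => times (powE (fun a b => (H a b).im) r)
          (times (powE (fun a b => (H a b).im) r) (powE (fun a b => (H a b).im) m))
            (fun p => Ψ (w p)) := by
    funext w
    rw [mulM_apply, mulM_apply, hpw, hpw]
    rfl
  rw [h6] at hv
  exact hv

end

end Pool.Agent.W547.HR
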