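import Pool.Agent.W547.HR.Coord

/-!
# The top power of a nondegenerate form does not vanish
-/

set_option linter.unusedSectionVars false
set_option linter.unusedVariables false

namespace Pool.Agent.W547.HR

open ExteriorAlgebra Equiv

noncomputable section

variable {ι : Type} [Fintype ι] [DecidableEq ι]

theorem euler_E2 (L : MultilinearMap ℝ (fun _ : Fin 2 => ι → ℝ) ℝ) :
    ∑ i : ι, ExteriorAlgebra.ι ℝ (Pi.single i 1 : ι → ℝ) * D (Pi.single i 1) (E2 L) =
      (2 : ℝ) • E2 L := by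
  have h1 : ∀ i : ι, ExteriorAlgebra.ι ℝ (Pi.single i 1 : ι → ℝ) * D (Pi.single i 1) (E2 L) =
      ∑ s : Fin 2 → ι, coef L s • ((if i = s 0 then (1 : ℝ) else 0) •
        (ExteriorAlgebra.ι ℝ (Pi.single i 1 : ι → ℝ) *
          ExteriorAlgebra.ι ℝ (Pi.single (s 1) 1 : ι → ℝ)) -
        (if i = s 1 then (1 : ℝ) else 0) • (ExteriorAlgebra.ι ℝ (Pi.single i 1 : ι → ℝ) *
          ExteriorAlgebra.ι ℝ (Pi.single (s 0) 1 : ι → ℝ))) := by
    intro i
    rw [D_E2, Finset.mul_sum]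
    refine Finset.sum_congr rfl fun s _ => ?_
    rw [mul_smul_comm, mul_sub, mul_smul_comm, mul_smul_comm]
    simp only [Pi.single_apply, eq_comm]
  rw [Finset.sum_congr rfl fun i _ => h1 i, Finset.sum_comm, E2_sum, Finset.smul_sum]
  refine Finset.sum_congr rfl fun s _ => ?_
  rw [← Finset.smul_sum, Finset.sum_sub_distrib, smul_comm (2 : ℝ)]
  congr 1
  simp only [ite_smul, one_smul, zero_smul, Finset.sum_ite_eq', Finset.mem_univ, if_true]
  rw [ι_anti (Pi.single (s 1) 1) (Pi.single (s 0) 1), sub_neg_eq_add, two_smul]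

theorem euler_om (L : MultilinearMap ℝ (fun _ : Fin 2 => ι → ℝ) ℝ) :
    ∑ i : ι, ExteriorAlgebra.ι ℝ (Pi.single i 1 : ι → ℝ) * D (Pi.single i 1) (om L) =
      (2 : ℝ) • om L := by
  have h1 := euler_E2 L
  rw [E2_eq] at h1
  have h2 : (2 : ℝ) • ∑ i : ι, ExteriorAlgebra.ι ℝ (Pi.single i 1 : ι → ℝ) *
      D (Pi.single i 1) (om L) = (2 : ℝ) • ((2 : ℝ) • om L) := by
    rw [← h1, Finset.smul_sum]
    refine Finset.sum_congr rfl fun i _ => ?_
    rw [map_smul, mul_smul_comm]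
  exact smul_right_injective (A ι) (two_ne_zero : (2 : ℝ) ≠ 0) h2

theorem euler_pow (L : MultilinearMap ℝ (fun _ : Fin 2 => ι → ℝ) ℝ) (j : ℕ) :
    ∑ i : ι, ExteriorAlgebra.ι ℝ (Pi.single i 1 : ι → ℝ) * D (Pi.single i 1) (om L ^ j) =
      (2 * j : ℝ) • om L ^ j := by
  cases j with
  | zero =>
    simp [D_one]
  | succ j =>
    have h1 : ∀ i : ι, ExteriorAlgebra.ι ℝ (Pi.single i 1 : ι → ℝ) *
        D (Pi.single i 1) (om L ^ (j + 1)) = ((j : ℝ) + 1) •
          ((ExteriorAlgebra.ι ℝ (Pi.single i 1 : ι → ℝ) * D (Pi.single i 1) (om L)) *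
            om L ^ j) := by
      intro i
      have h2 := (isEven_om L).D_pow_mul (Pi.single i 1) j 1
      rw [mul_one, mul_one, D_one, mul_zero, add_zero] at h2
      rw [h2, mul_smul_comm, mul_assoc]
    rw [Finset.sum_congr rfl fun i _ => h1 i, ← Finset.smul_sum, ← Finset.sum_mul, euler_om,
      smul_mul_assoc, ← pow_succ', smul_smul]
    congr 1
    push_cast
    ring

theorem om_pow_ne_zero (L : MultilinearMap ℝ (fun _ : Fin 2 => ι → ℝ) ℝ)
    (hL : ∀ a b, L ![a, b] = -L ![b, a]) (J : (ι → ℝ) → (ι → ℝ))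
    (hJ : ∀ u w, L ![J u, w] = ∑ i, u i * w i) (j : ℕ) (hj : 2 * j ≤ Fintype.card ι) :
    om L ^ j ≠ 0 := by
  induction j with
  | zero => rw [pow_zero]; exact one_ne_zero
  | succ j ih =>
    intro h
    have h0 : om L ^ j ≠ 0 := ih (by omega)
    have h1 : ∀ u : ι → ℝ, ExteriorAlgebra.ι ℝ u * om L ^ j = 0 := by
      intro u
      have h2 := (step (isEven_om L) (J u) j 1 (by rw [h, zero_mul])).1
      rw [D_one, mul_zero, neg_zero, D_om L hL _ _ (hJ u), mul_one] at h2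
      exact (smul_eq_zero.1 h2).resolve_left (by positivity)
    have h2 : ∀ i : ι, ExteriorAlgebra.ι ℝ (Pi.single i 1 : ι → ℝ) *
        D (Pi.single i 1) (om L ^ j) = om L ^ j := by
      intro i
      have h3 := congrArg (D (Pi.single i 1)) (h1 (Pi.single i 1))
      rw [D_ι_mul, map_zero, dp_single, Pi.single_eq_same, one_smul, sub_eq_zero] at h3
      exact h3.symm
    have h3 := euler_pow L j
    rw [Finset.sum_congr rfl fun i _ => h2 i, Finset.sum_const, Finset.card_univ,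
      ← Nat.cast_smul_eq_nsmul ℝ, ← sub_eq_zero, ← sub_smul] at h3
    rcases smul_eq_zero.1 h3 with h4 | h4
    · have h5 : ((2 * (j + 1) : ℕ) : ℝ) ≤ (Fintype.card ι : ℝ) := Nat.cast_le.2 hj
      push_cast at h5
      linarith
    · exact h0 h4

/-- The top power of the form does not vanish identically. -/
theorem exists_vol_ne_zero (L : MultilinearMap ℝ (fun _ : Fin 2 => ι → ℝ) ℝ)
    (hL : ∀ a b, L ![a, b] = -L ![b, a]) (J : (ι → ℝ) → (ι → ℝ))
    (hJ : ∀ u w, L ![J u, w] = ∑ i, u i * w i) (r m : ℕ)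
    (hrm : 2 * (r + (r + m)) ≤ Fintype.card ι) :
    ∃ v : (Fin r × Fin 2) ⊕ ((Fin r × Fin 2) ⊕ (Fin m × Fin 2)) → ι → ℝ,
      altSum (mulM (pw L r) (mulM (pw L r) (pw L m))) v ≠ 0 := by
  by_contra h
  push Not at h
  have h1 : cls (addE (en r) (addE (en r) (en m)))
      (coef (mulM (pw L r) (mulM (pw L r) (pw L m)))) = 0 :=
    cls_eq_zero _ _ fun s => h _
  rw [cls_mulM, cls_mulM, cls_pw, cls_pw, ← pow_add, ← pow_add, E2_pow] at h1
  exact om_pow_ne_zero L hL J hJ _ hrm ((smul_eq_zero.1 h1).resolve_left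
    (pow_ne_zero _ two_ne_zero))

end

end Pool.Agent.W547.HR
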